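import Mathlib.Algebra.CharP.Frobenius
import Mathlib.FieldTheory.Finite.Basic
import Mathlib.Algebra.MvPolynomial.CommRing
import Mathlib.Tactic

/-!
The maps `∑ f_n x^n ↦ ∑ f_{q m + a} x^m` on `𝔽_p[x, y]`, `q = p^e`, which are `p^{-e}`-linear.
-/

set_option autoImplicit false

namespace Pool.Agent.Q85.FrobProj

open MvPolynomial

variable (p : ℕ) [hp : Fact p.Prime]

/-- the map `∑ f_n x^n ↦ ∑ f_{q m + a} x^m` -/
noncomputable def proj (q : ℕ) (hq : 0 < q) (a : Fin 2 →₀ ℕ) :
    MvPolynomial (Fin 2) (ZMod p) →+ MvPolynomial (Fin 2) (ZMod p) where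
  toFun f := AddMonoidAlgebra.ofCoeff
    (Finsupp.comapDomain (fun m : Fin 2 →₀ ℕ => q • m + a) (AddMonoidAlgebra.coeff f) (by
      intro m _ n _ h
      have h' : q • m = q • n := add_right_cancel h
      ext i
      have := DFunLike.congr_fun h' i
      simpa [hq.ne'] using this))
  map_zero' := by
    ext m
    rfl
  map_add' f g := by
    ext m
    rfl

lemma coeff_proj (q : ℕ) (hq : 0 < q) (a : Fin 2 →₀ ℕ) (f : MvPolynomial (Fin 2) (ZMod p))
    (m : Fin 2 →₀ ℕ) : coeff m (proj p q hq a f) = coeff (q • m + a) f := rfl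

lemma proj_cartier (e : ℕ) (a : Fin 2 →₀ ℕ) (ha : ∀ i, a i < p ^ e)
    (r s : MvPolynomial (Fin 2) (ZMod p)) :
    proj p (p ^ e) (pow_pos hp.out.pos e) a (r ^ (p ^ e) * s) =
      r * proj p (p ^ e) (pow_pos hp.out.pos e) a s := by
  induction r using MvPolynomial.induction_on' with
  | monomial n c =>
    ext m
    rw [coeff_proj, monomial_pow, ZMod.pow_card_pow, coeff_monomial_mul', coeff_monomial_mul']
    have h : (p ^ e) • n ≤ (p ^ e) • m + a ↔ n ≤ m := by
      simp only [Finsupp.le_def, Finsupp.add_apply, Finsupp.smul_apply, smul_eq_mul]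
      refine forall_congr' fun i => ?_
      have hi := ha i
      constructor
      · intro h
        by_contra hcon
        have : m i + 1 ≤ n i := by omega
        have := Nat.mul_le_mul_left (p ^ e) this
        rw [Nat.mul_add, mul_one] at this
        omega
      · intro h
        have := Nat.mul_le_mul_left (p ^ e) h
        omega
    by_cases hn : n ≤ m
    · rw [if_pos hn, if_pos (h.mpr hn), coeff_proj]
      congr 2
      ext i
      have h1 := hn i
      have h2 := (h.mpr hn) i
      simp only [Finsupp.add_apply, Finsupp.smul_apply, smul_eq_mul, Finsupp.tsub_apply,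
        Nat.mul_sub] at h2 ⊢
      have := Nat.mul_le_mul_left (p ^ e) h1
      omega
    · rw [if_neg hn, if_neg (fun h' => hn (h.mp h'))]
  | add f g hf hg =>
    rw [add_pow_char_pow, add_mul, map_add, hf, hg, add_mul]

/-- `x^A y^B` -/
noncomputable def mono (A B : ℕ) : MvPolynomial (Fin 2) (ZMod p) := X 0 ^ A * X 1 ^ B

lemma mono_eq (A B : ℕ) : mono p A B =
    monomial (Finsupp.single 0 A + Finsupp.single 1 B) 1 := by
  rw [mono, X_pow_eq_monomial, X_pow_eq_monomial, monomial_mul, one_mul]

/-- A monomial `x^u` lies in `J` if `x^(q(u+1)-1)` lies in `J^[q]`. -/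
lemma mono_mem_of_mem (e : ℕ) (J : Ideal (MvPolynomial (Fin 2) (ZMod p))) (u v : ℕ)
    (h : mono p (p ^ e * (u + 1) - 1) (p ^ e * (v + 1) - 1) ∈
      Ideal.span ((fun g => g ^ (p ^ e)) '' (J : Set (MvPolynomial (Fin 2) (ZMod p))))) :
    mono p u v ∈ J := by
  have hq : 0 < p ^ e := pow_pos hp.out.pos e
  set a : Fin 2 →₀ ℕ := Finsupp.single 0 (p ^ e - 1) + Finsupp.single 1 (p ^ e - 1) with ha
  have ha' : ∀ i, a i < p ^ e := by
    intro i
    fin_cases i <;> simp [ha, hq]
  have key : ∀ x ∈ Ideal.span ((fun g => g ^ (p ^ e)) ''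
      (J : Set (MvPolynomial (Fin 2) (ZMod p)))), ∀ s, proj p (p ^ e) hq a (s * x) ∈ J := by
    intro x hx
    induction hx using Submodule.span_induction with
    | mem x hx =>
      obtain ⟨g, hg, rfl⟩ := hx
      intro s
      rw [mul_comm s, proj_cartier p e a ha']
      exact Ideal.mul_mem_right _ _ hg
    | zero => intro s; rw [mul_zero, map_zero]; exact Ideal.zero_mem _
    | add x y _ _ hx hy => intro s; rw [mul_add, map_add]; exact Ideal.add_mem _ (hx s) (hy s)
    | smul r x _ hx => intro s; rw [smul_eq_mul, ← mul_assoc]; exact hx _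
  have h1 := key _ h 1
  rw [one_mul] at h1
  have h2 : proj p (p ^ e) hq a (mono p (p ^ e * (u + 1) - 1) (p ^ e * (v + 1) - 1)) =
      mono p u v := by
    ext m
    rw [coeff_proj, mono_eq, mono_eq, coeff_monomial, coeff_monomial]
    refine if_congr ?_ rfl rfl
    have hu : p ^ e * (u + 1) - 1 = p ^ e * u + (p ^ e - 1) := by
      rw [Nat.mul_add, mul_one]
      omega
    have hv : p ^ e * (v + 1) - 1 = p ^ e * v + (p ^ e - 1) := by
      rw [Nat.mul_add, mul_one]
      omega
    rw [hu, hv, ha]
    constructor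
    · intro h
      ext i
      have h0 := DFunLike.congr_fun h i
      fin_cases i
      · simp at h0 ⊢
        rcases h0 with h0 | h0
        · exact h0
        · exact absurd h0.1 hp.out.ne_zero
      · simp at h0 ⊢
        rcases h0 with h0 | h0
        · exact h0
        · exact absurd h0.1 hp.out.ne_zero
    · intro h
      rw [← h]
      ext i
      fin_cases i <;> simp
  rwa [h2] at h1

end Pool.Agent.Q85.FrobProj
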